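import Mathlib

/-!
# Generic linear projections: non-collinear and non-concyclic images
-/

set_option autoImplicit false

namespace Pool.Agent.J4H91.Circ

open Finset

/-- the collinearity determinant of two plane vectors -/
def det2 (a b c d : ℝ) : ℝ := a * d - b * c

/-- the concyclicity determinant of the three plane vectors `(a,b)`, `(c,d)`, `(e,f)` and the origin -/
def det3 (a b c d e f : ℝ) : ℝ :=
  (a ^ 2 + b ^ 2) * (c * f - d * e) - (c ^ 2 + d ^ 2) * (a * f - b * e)
    + (e ^ 2 + f ^ 2) * (a * d - b * c)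

variable {D : ℕ}

/-- a linear form with prescribed values on a linearly independent family -/
theorem exists_form {ι : Type*} (v : ι → (Fin D → ℝ)) (hv : LinearIndependent ℝ v) (c : ι → ℝ) :
    ∃ x : Fin D → ℝ, ∀ i, ∑ k, v i k * x k = c i := by
  obtain ⟨f, hf⟩ := LinearMap.exists_extend
    ((Finsupp.linearCombination ℝ c).comp hv.repr)
  refine ⟨fun k => f (fun j => if k = j then 1 else 0), fun i => ?_⟩
  have h1 : f (v i) = c i := by
    have h2 : (v i) = (Submodule.span ℝ (Set.range v)).subtype
        ⟨v i, Submodule.subset_span ⟨i, rfl⟩⟩ := rfl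
    have h3 := LinearMap.congr_fun hf ⟨v i, Submodule.subset_span ⟨i, rfl⟩⟩
    rw [LinearMap.comp_apply] at h3
    rw [h2, h3]
    simp only [LinearMap.comp_apply]
    rw [hv.repr_eq_single i _ rfl]
    simp
  rw [← h1, LinearMap.pi_apply_eq_sum_univ f (v i)]
  rfl

/-- two linearly independent vectors are separated by a projection -/
theorem exists_det2 (u w : Fin D → ℝ) (h : LinearIndependent ℝ ![u, w]) :
    ∃ x y : Fin D → ℝ,
      det2 (∑ k, u k * x k) (∑ k, u k * y k) (∑ k, w k * x k) (∑ k, w k * y k) ≠ 0 := by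
  obtain ⟨x, hx⟩ := exists_form _ h ![1, 0]
  obtain ⟨y, hy⟩ := exists_form _ h ![0, 1]
  refine ⟨x, y, ?_⟩
  have h1 := hx 0
  have h2 := hx 1
  have h3 := hy 0
  have h4 := hy 1
  simp at h1 h2 h3 h4
  rw [h1, h2, h3, h4]
  simp [det2]

/-- three pairwise independent vectors and the origin have a non-concyclic projection -/
theorem exists_det3 (u w z : Fin D → ℝ) (h : LinearIndependent ℝ ![u, w])
    (hu : LinearIndependent ℝ ![u, z]) (hw : LinearIndependent ℝ ![w, z]) :
    ∃ x y : Fin D → ℝ,
      det3 (∑ k, u k * x k) (∑ k, u k * y k) (∑ k, w k * x k) (∑ k, w k * y k)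
        (∑ k, z k * x k) (∑ k, z k * y k) ≠ 0 := by
  by_cases hz : z ∈ Submodule.span ℝ (Set.range ![u, w])
  · rw [Matrix.range_cons, Matrix.range_cons, Matrix.range_empty, Set.union_empty,
      Set.singleton_union, Submodule.mem_span_pair] at hz
    obtain ⟨a, b, hab⟩ := hz
    have ha : a ≠ 0 := by
      rintro rfl
      rw [LinearIndependent.pair_iff] at hw
      have := hw b (-1) (by rw [← hab]; simp)
      norm_num at this
    have hb : b ≠ 0 := by
      rintro rfl
      rw [LinearIndependent.pair_iff] at hu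
      have := hu a (-1) (by rw [← hab]; simp)
      norm_num at this
    obtain ⟨y, hy⟩ := exists_form _ h ![0, 1]
    have hy1 := hy 0
    have hy2 := hy 1
    simp at hy1 hy2
    have hzs : ∀ x : Fin D → ℝ, ∑ k, z k * x k = a * (∑ k, u k * x k) + b * ∑ k, w k * x k := by
      intro x
      rw [← hab, Finset.mul_sum, Finset.mul_sum, ← Finset.sum_add_distrib]
      refine Finset.sum_congr rfl fun k _ => ?_
      simp only [Pi.add_apply, Pi.smul_apply, smul_eq_mul]
      ring
    obtain ⟨x1, hx1⟩ := exists_form _ h ![1, 1]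
    obtain ⟨x2, hx2⟩ := exists_form _ h ![1, -1]
    have h1 := hx1 0
    have h2 := hx1 1
    have h3 := hx2 0
    have h4 := hx2 1
    simp at h1 h2 h3 h4
    by_contra hcon
    push Not at hcon
    have e1 := hcon x1 y
    have e2 := hcon x2 y
    rw [hzs, hzs, hy1, hy2, h1, h2] at e1
    rw [hzs, hzs, hy1, hy2, h3, h4] at e2
    unfold det3 at e1 e2
    have : a * b = 0 := by nlinarith
    rcases mul_eq_zero.mp this with h0 | h0
    · exact ha h0
    · exact hb h0
  · have h3 : LinearIndependent ℝ ![z, u, w] := linearIndependent_finCons.mpr ⟨h, hz⟩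
    obtain ⟨x, hx⟩ := exists_form _ h3 ![2, 1, 0]
    obtain ⟨y, hy⟩ := exists_form _ h3 ![0, 0, 1]
    have a1 := hx 0
    have a2 := hx 1
    have a3 := hx 2
    have b1 := hy 0
    have b2 := hy 1
    have b3 := hy 2
    simp at a1 a2 a3 b1 b2 b3
    refine ⟨x, y, ?_⟩
    rw [a1, a2, a3, b1, b2, b3]
    norm_num [det3]

end Pool.Agent.J4H91.Circ
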