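import Pool.Agent.J4H91.Circ.Geo

/-!
# Points on a sphere of the grid, and the number of circumradii of a generic projection
-/

set_option autoImplicit false

namespace Pool.Agent.J4H91.Circ

open Finset

variable {D : ℕ}

/-- three distinct grid points at the same distance from the origin are not collinear -/
theorem indep_of_sphere (a b c : Fin D → ℝ) (hab : a ≠ b) (hac : a ≠ c) (hbc : b ≠ c)
    (h1 : ∑ k, b k ^ 2 = ∑ k, a k ^ 2) (h2 : ∑ k, c k ^ 2 = ∑ k, a k ^ 2) :
    LinearIndependent ℝ ![b - a, c - a] := by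
  have pos : ∀ u : Fin D → ℝ, ∑ k, u k ^ 2 = 0 → u = 0 := by
    intro u hu
    rw [Finset.sum_eq_zero_iff_of_nonneg (fun k _ => sq_nonneg _)] at hu
    ext k
    exact pow_eq_zero_iff (two_ne_zero) |>.mp (hu k (mem_univ k))
  set u := b - a with hu
  set w := c - a with hw
  have hu0 : ∑ k, u k ^ 2 ≠ 0 := fun h => hab (by
    have := pos u h
    rw [hu, sub_eq_zero] at this
    exact this.symm)
  have hw0 : ∑ k, w k ^ 2 ≠ 0 := fun h => hac (by
    have := pos w h
    rw [hw, sub_eq_zero] at this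
    exact this.symm)
  have huw : ∑ k, u k ^ 2 - 2 * ∑ k, u k * w k + ∑ k, w k ^ 2 ≠ 0 := fun h => hbc (by
    have h3 : ∑ k, (u - w) k ^ 2 = 0 := by
      rw [← h, Finset.mul_sum, ← Finset.sum_sub_distrib, ← Finset.sum_add_distrib]
      exact Finset.sum_congr rfl fun k _ => by simp only [Pi.sub_apply]; ring
    have := pos (u - w) h3
    rw [hu, hw, sub_eq_zero] at this
    exact sub_left_injective this)
  have eU : 2 * ∑ k, a k * u k + ∑ k, u k ^ 2 = 0 := by
    have : ∑ k, b k ^ 2 - ∑ k, a k ^ 2 = 2 * ∑ k, a k * u k + ∑ k, u k ^ 2 := by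
      rw [Finset.mul_sum, ← Finset.sum_sub_distrib, ← Finset.sum_add_distrib]
      exact Finset.sum_congr rfl fun k _ => by simp only [hu, Pi.sub_apply]; ring
    rw [← this, h1, sub_self]
  have eW : 2 * ∑ k, a k * w k + ∑ k, w k ^ 2 = 0 := by
    have : ∑ k, c k ^ 2 - ∑ k, a k ^ 2 = 2 * ∑ k, a k * w k + ∑ k, w k ^ 2 := by
      rw [Finset.mul_sum, ← Finset.sum_sub_distrib, ← Finset.sum_add_distrib]
      exact Finset.sum_congr rfl fun k _ => by simp only [hw, Pi.sub_apply]; ring
    rw [← this, h2, sub_self]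
  rw [LinearIndependent.pair_iff]
  intro s t hst
  have hk : ∀ k, s * u k + t * w k = 0 := fun k => by
    have := congrFun hst k
    simpa using this
  have key : ∀ x : Fin D → ℝ, s * ∑ k, x k * u k + t * ∑ k, x k * w k = 0 := by
    intro x
    rw [Finset.mul_sum, Finset.mul_sum, ← Finset.sum_add_distrib]
    refine Finset.sum_eq_zero fun k _ => ?_
    have := hk k
    linear_combination x k * this
  have ka := key a
  have ku := key u
  have kw := key w
  have c1 : ∑ k, u k * u k = ∑ k, u k ^ 2 := Finset.sum_congr rfl fun k _ => by ring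
  have c2 : ∑ k, w k * w k = ∑ k, w k ^ 2 := Finset.sum_congr rfl fun k _ => by ring
  have c3 : ∑ k, w k * u k = ∑ k, u k * w k := Finset.sum_congr rfl fun k _ => by ring
  rw [c1] at ku
  rw [c2, c3] at kw
  set U := ∑ k, u k ^ 2
  set W := ∑ k, w k ^ 2
  set V := ∑ k, u k * w k
  set X := ∑ k, a k * u k
  set Y := ∑ k, a k * w k
  -- `s U + t W = 0`
  have k1 : s * U + t * W = 0 := by linear_combination -2 * ka + s * eU + t * eW
  have k2 : t * (W - V) = 0 := by linear_combination k1 - ku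
  have k3 : s * (U - V) = 0 := by linear_combination k1 - kw
  rcases mul_eq_zero.mp k3 with hs | hs
  · refine ⟨hs, ?_⟩
    rw [hs, zero_mul, zero_add] at k1
    exact (mul_eq_zero.mp k1).resolve_right hw0
  · rcases mul_eq_zero.mp k2 with ht | ht
    · refine ⟨?_, ht⟩
      rw [ht, zero_mul, add_zero] at k1
      exact (mul_eq_zero.mp k1).resolve_right hu0
    · exact absurd (by linarith : U - 2 * V + W = 0) huw

/-- the grid `{0, …, m-1}^D` has many points on a common sphere -/
theorem exists_sphere (D m n : ℕ) (hD : 0 < D) (hm : 0 < m) (h : D * m ^ 2 * n ≤ m ^ D) :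
    ∃ S : Finset (Fin D → ℕ), S.card = n ∧ (∀ a ∈ S, ∀ k, a k < m) ∧
      ∀ a ∈ S, ∀ b ∈ S, ∑ k, a k ^ 2 = ∑ k, b k ^ 2 := by
  classical
  let B : Finset (Fin D → ℕ) := Fintype.piFinset fun _ => range m
  have hB : B.card = m ^ D := by
    simp [B]
  have hmaps : ∀ a ∈ B, ∑ k, a k ^ 2 ∈ range (D * m ^ 2) := by
    intro a ha
    rw [mem_range]
    have h1 : ∀ k, a k < m := fun k => by
      have := (Fintype.mem_piFinset.mp ha) k
      exact mem_range.mp this
    calc ∑ k, a k ^ 2 < ∑ _k : Fin D, m ^ 2 := by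
          apply Finset.sum_lt_sum_of_nonempty
          · exact ⟨⟨0, hD⟩, mem_univ _⟩
          · intro k _
            exact Nat.pow_lt_pow_left (h1 k) (by norm_num)
      _ = D * m ^ 2 := by simp
  have hne : (range (D * m ^ 2)).Nonempty := ⟨0, by rw [mem_range]; positivity⟩
  obtain ⟨s, _, hs⟩ := Finset.exists_le_card_fiber_of_mul_le_card_of_maps_to hmaps hne
    (n := n) (by rw [card_range, hB]; exact h)
  obtain ⟨S, hS, hSc⟩ := Finset.exists_subset_card_eq hs
  refine ⟨S, hSc, ?_, ?_⟩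
  · intro a ha k
    have := (mem_filter.mp (hS ha)).1
    exact mem_range.mp ((Fintype.mem_piFinset.mp this) k)
  · intro a ha b hb
    rw [(mem_filter.mp (hS ha)).2, (mem_filter.mp (hS hb)).2]

/-- The main construction: `n` points in general position with at most `(2m)^(2D)` circumradii. -/
theorem construction (D m n : ℕ) (hD : 0 < D) (hm : 0 < m) (hn : 3 ≤ n)
    (h : D * m ^ 2 * n ≤ m ^ D) :
    ∃ P : Finset Plane, P.card = n ∧ GeneralPosition P ∧ (radii P).Finite ∧
      (radii P).ncard ≤ (2 * m) ^ (2 * D) := by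
  classical
  obtain ⟨S0, hc, hlt, hsph⟩ := exists_sphere D m n hD hm h
  let ι : (Fin D → ℕ) → (Fin D → ℝ) := fun a k => (a k : ℝ)
  have hι : Function.Injective ι := fun a b hab => by
    ext k
    have : (a k : ℝ) = (b k : ℝ) := congrFun hab k
    exact_mod_cast this
  let S : Finset (Fin D → ℝ) := S0.image ι
  have hS : ∀ a ∈ S, ∀ b ∈ S, ∀ c ∈ S, a ≠ b → a ≠ c → b ≠ c →
      LinearIndependent ℝ ![b - a, c - a] := by
    intro a0 ha0 b0 hb0 c0 hc0 h1 h2 h3
    obtain ⟨a, ha, rfl⟩ := mem_image.mp ha0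
    obtain ⟨b, hb, rfl⟩ := mem_image.mp hb0
    obtain ⟨c, hc', rfl⟩ := mem_image.mp hc0
    refine indep_of_sphere _ _ _ h1 h2 h3 ?_ ?_
    · have := hsph b hb a ha
      simp only [ι]
      exact_mod_cast this
    · have := hsph c hc' a ha
      simp only [ι]
      exact_mod_cast this
  obtain ⟨x, y, h2, h3⟩ := exists_proj S hS
  have hScard : S.card = n := by rw [card_image_of_injective _ hι, hc]
  -- injectivity
  have hinj : Set.InjOn (proj x y) S := by
    intro a ha b hb hab
    by_contra hne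
    obtain ⟨c, hcS, hca, hcb⟩ : ∃ c ∈ S, c ≠ a ∧ c ≠ b := by
      by_contra hcon
      push Not at hcon
      have : S ⊆ {a, b} := by
        intro c hc'
        by_cases h : c = a
        · simp [h]
        · simp [hcon c hc' h]
      have := card_le_card this
      have h4 : ({a, b} : Finset (Fin D → ℝ)).card ≤ 2 := card_le_two
      omega
    apply h2 a ha b hb c hcS hne (Ne.symm hca) (Ne.symm hcb)
    rw [← sub_zero' x y b a, ← sub_one' x y b a, hab]
    simp [det2]
  refine ⟨S.image (proj x y), ?_, ⟨?_, ?_⟩, ?_⟩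
  · rw [card_image_of_injOn hinj, hScard]
  · intro a0 ha0 b0 hb0 c0 hc0 n1 n2 n3 hcol
    obtain ⟨a, ha, rfl⟩ := mem_image.mp ha0
    obtain ⟨b, hb, rfl⟩ := mem_image.mp hb0
    obtain ⟨c, hc', rfl⟩ := mem_image.mp hc0
    have := det2_of_collinear hcol
    rw [sub_zero', sub_zero', sub_one', sub_one'] at this
    exact h2 a ha b hb c hc' (fun h => n1 (by rw [h])) (fun h => n2 (by rw [h]))
      (fun h => n3 (by rw [h])) this
  · intro a0 ha0 b0 hb0 c0 hc0 d0 hd0 n1 n2 n3 n4 n5 n6 ⟨z, r, z1, z2, z3, z4⟩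
    obtain ⟨a, ha, rfl⟩ := mem_image.mp ha0
    obtain ⟨b, hb, rfl⟩ := mem_image.mp hb0
    obtain ⟨c, hc', rfl⟩ := mem_image.mp hc0
    obtain ⟨d, hd, rfl⟩ := mem_image.mp hd0
    have := det3_of_cospherical z1 z2 z3 z4
    rw [sub_zero', sub_zero', sub_zero', sub_one', sub_one', sub_one'] at this
    exact h3 a ha b hb c hc' d hd (fun h => n1 (by rw [h])) (fun h => n2 (by rw [h]))
      (fun h => n3 (by rw [h])) (fun h => n4 (by rw [h])) (fun h => n5 (by rw [h]))
      (fun h => n6 (by rw [h])) this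
  · -- counting the radii
    let Box : Finset (Fin D → ℤ) := Fintype.piFinset fun _ => Finset.Ioo (-(m : ℤ)) m
    have hBox : Box.card ≤ (2 * m) ^ D := by
      simp only [Box, Fintype.card_piFinset, Int.card_Ioo, prod_const, card_univ, Fintype.card_fin]
      apply Nat.pow_le_pow_left
      omega
    let Q : (Fin D → ℤ) × (Fin D → ℤ) → ℝ → Prop := fun t r =>
      ∃ a b c : Plane, ∃ z : Plane,
        b 0 - a 0 = ∑ k, (t.1 k : ℝ) * x k ∧ b 1 - a 1 = ∑ k, (t.1 k : ℝ) * y k ∧
        c 0 - a 0 = ∑ k, (t.2 k : ℝ) * x k ∧ c 1 - a 1 = ∑ k, (t.2 k : ℝ) * y k ∧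
        det2 (b 0 - a 0) (b 1 - a 1) (c 0 - a 0) (c 1 - a 1) ≠ 0 ∧
        dist a z = r ∧ dist b z = r ∧ dist c z = r
    let ρ : (Fin D → ℤ) × (Fin D → ℤ) → ℝ := fun t => if h : ∃ r, Q t r then h.choose else 0
    have hsub : radii (S.image (proj x y)) ⊆ ((Box ×ˢ Box).image ρ : Finset ℝ) := by
      rintro r ⟨a0, ha0, b0, hb0, c0, hc0, n1, n2, n3, z, z1, z2, z3⟩
      obtain ⟨a1, ha, rfl⟩ := mem_image.mp ha0
      obtain ⟨b1, hb, rfl⟩ := mem_image.mp hb0
      obtain ⟨c1, hc', rfl⟩ := mem_image.mp hc0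
      have hdet := h2 a1 ha b1 hb c1 hc' (fun h => n1 (by rw [h])) (fun h => n2 (by rw [h]))
        (fun h => n3 (by rw [h]))
      obtain ⟨a, ha', rfl⟩ := mem_image.mp ha
      obtain ⟨b, hb', rfl⟩ := mem_image.mp hb
      obtain ⟨c, hc'', rfl⟩ := mem_image.mp hc'
      rw [mem_coe, mem_image]
      let t : (Fin D → ℤ) × (Fin D → ℤ) :=
        (fun k => (b k : ℤ) - a k, fun k => (c k : ℤ) - a k)
      have hbox : ∀ p ∈ S0, ∀ q ∈ S0, (fun k => (q k : ℤ) - p k) ∈ Box := by
        intro p hp q hq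
        rw [Fintype.mem_piFinset]
        intro k
        have e1 := hlt p hp k
        have e2 := hlt q hq k
        rw [Finset.mem_Ioo]
        constructor <;> omega
      refine ⟨t, mem_product.mpr ⟨hbox a ha' b hb', hbox a ha' c hc''⟩, ?_⟩
      have hcast : ∀ (p q : Fin D → ℕ) (v : Fin D → ℝ),
          ∑ k, (ι q - ι p) k * v k = ∑ k, (((q k : ℤ) - p k : ℤ) : ℝ) * v k := by
        intro p q v
        refine Finset.sum_congr rfl fun k _ => ?_
        simp only [ι, Pi.sub_apply]
        push_cast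
        rfl
      have hQ : Q t r := by
        refine ⟨proj x y (ι a), proj x y (ι b), proj x y (ι c), z, ?_, ?_, ?_, ?_, ?_, z1, z2, z3⟩
        · rw [sub_zero', hcast]
        · rw [sub_one', hcast]
        · rw [sub_zero', hcast]
        · rw [sub_one', hcast]
        · rw [sub_zero', sub_one', sub_zero', sub_one']
          exact hdet
      have hex : ∃ r, Q t r := ⟨r, hQ⟩
      have hρ : ρ t = hex.choose := dif_pos hex
      rw [hρ]
      obtain ⟨a1, b1, c1, z', q1, q2, q3, q4, q5, q6, q7, q8⟩ := hex.choose_spec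
      obtain ⟨a2, b2, c2, z'', w1, w2, w3, w4, w5, w6, w7, w8⟩ := hQ
      exact radius_unique q5 (by rw [w1, q1]) (by rw [w2, q2]) (by rw [w3, q3]) (by rw [w4, q4])
        q6 q7 q8 w6 w7 w8
    refine ⟨(Finset.finite_toSet _).subset hsub, ?_⟩
    calc (radii (S.image (proj x y))).ncard
        ≤ (((Box ×ˢ Box).image ρ : Finset ℝ) : Set ℝ).ncard :=
          Set.ncard_le_ncard hsub (Finset.finite_toSet _)
      _ = ((Box ×ˢ Box).image ρ).card := Set.ncard_coe_finset _
      _ ≤ (Box ×ˢ Box).card := card_image_le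
      _ = Box.card * Box.card := card_product _ _
      _ ≤ (2 * m) ^ D * (2 * m) ^ D := Nat.mul_le_mul hBox hBox
      _ = (2 * m) ^ (2 * D) := by rw [← pow_add, two_mul D]

end Pool.Agent.J4H91.Circ
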