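import Pool.Agent.J4H91.Circ.Alg

/-!
# Points in general position, circumradii, and generic projections of sets without collinear triples
-/

set_option autoImplicit false

namespace Pool.Agent.J4H91.Circ

open Finset

/-- the Euclidean plane -/
abbrev Plane : Type := EuclideanSpace ℝ (Fin 2)

/-- No three points of `P` are collinear and no four points of `P` lie on a common circle. -/
def GeneralPosition (P : Finset Plane) : Prop :=
  (∀ a ∈ P, ∀ b ∈ P, ∀ c ∈ P, a ≠ b → a ≠ c → b ≠ c → ¬ Collinear ℝ ({a, b, c} : Set Plane)) ∧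
  (∀ a ∈ P, ∀ b ∈ P, ∀ c ∈ P, ∀ d ∈ P, a ≠ b → a ≠ c → a ≠ d → b ≠ c → b ≠ d → c ≠ d →
    ¬ ∃ (z : Plane) (r : ℝ), dist a z = r ∧ dist b z = r ∧ dist c z = r ∧ dist d z = r)

/-- The set of radii of the circles through (at least) three points of `P`. -/
def radii (P : Finset Plane) : Set ℝ :=
  {r | ∃ a ∈ P, ∃ b ∈ P, ∃ c ∈ P, a ≠ b ∧ a ≠ c ∧ b ≠ c ∧
    ∃ z : Plane, dist a z = r ∧ dist b z = r ∧ dist c z = r}

theorem dist_sq (p z : Plane) : dist p z ^ 2 = (p 0 - z 0) ^ 2 + (p 1 - z 1) ^ 2 := by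
  rw [EuclideanSpace.dist_eq, Real.sq_sqrt (by positivity), Fin.sum_univ_two,
    Real.dist_eq, Real.dist_eq, sq_abs, sq_abs]

/-- collinear points have vanishing determinant -/
theorem det2_of_collinear {a b c : Plane} (h : Collinear ℝ ({a, b, c} : Set Plane)) :
    det2 (b 0 - a 0) (b 1 - a 1) (c 0 - a 0) (c 1 - a 1) = 0 := by
  rw [collinear_iff_of_mem (p₀ := a) (by simp)] at h
  obtain ⟨v, hv⟩ := h
  obtain ⟨s, hs⟩ := hv b (by simp)
  obtain ⟨t, ht⟩ := hv c (by simp)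
  rw [hs, ht]
  simp only [det2, vadd_eq_add, PiLp.add_apply, PiLp.smul_apply, smul_eq_mul]
  ring

/-- the linear equation satisfied by a centre -/
theorem centre_eq {a b z : Plane} {r : ℝ} (ha : dist a z = r) (hb : dist b z = r) :
    (b 0 - a 0) ^ 2 + (b 1 - a 1) ^ 2 =
      2 * ((b 0 - a 0) * (z 0 - a 0) + (b 1 - a 1) * (z 1 - a 1)) := by
  have h1 := dist_sq a z
  have h2 := dist_sq b z
  rw [ha] at h1
  rw [hb] at h2
  linarith [h1, h2, sq_nonneg (a 0)]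

theorem det3_of_cospherical {a b c d z : Plane} {r : ℝ} (ha : dist a z = r) (hb : dist b z = r)
    (hc : dist c z = r) (hd : dist d z = r) :
    det3 (b 0 - a 0) (b 1 - a 1) (c 0 - a 0) (c 1 - a 1) (d 0 - a 0) (d 1 - a 1) = 0 := by
  have h1 := centre_eq ha hb
  have h2 := centre_eq ha hc
  have h3 := centre_eq ha hd
  unfold det3
  rw [h1, h2, h3]
  ring

/-- the circumradius is determined by the difference vectors -/
theorem radius_unique {a b c a' b' c' z z' : Plane} {r r' : ℝ}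
    (hdet : det2 (b 0 - a 0) (b 1 - a 1) (c 0 - a 0) (c 1 - a 1) ≠ 0)
    (h0 : b' 0 - a' 0 = b 0 - a 0) (h1 : b' 1 - a' 1 = b 1 - a 1)
    (h2 : c' 0 - a' 0 = c 0 - a 0) (h3 : c' 1 - a' 1 = c 1 - a 1)
    (ha : dist a z = r) (hb : dist b z = r) (hc : dist c z = r)
    (ha' : dist a' z' = r') (hb' : dist b' z' = r') (hc' : dist c' z' = r') : r = r' := by
  have e1 := centre_eq ha hb
  have e2 := centre_eq ha hc
  have e1' := centre_eq ha' hb'
  have e2' := centre_eq ha' hc'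
  rw [h0, h1] at e1'
  rw [h2, h3] at e2'
  have k0 : (z 0 - a 0) - (z' 0 - a' 0) = 0 := by
    have : det2 (b 0 - a 0) (b 1 - a 1) (c 0 - a 0) (c 1 - a 1) *
        ((z 0 - a 0) - (z' 0 - a' 0)) = 0 := by
      unfold det2
      linear_combination (-(c 1 - a 1) / 2) * e1 + ((c 1 - a 1) / 2) * e1' +
        ((b 1 - a 1) / 2) * e2 - ((b 1 - a 1) / 2) * e2'
    exact (mul_eq_zero.mp this).resolve_left hdet
  have k1 : (z 1 - a 1) - (z' 1 - a' 1) = 0 := by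
    have : det2 (b 0 - a 0) (b 1 - a 1) (c 0 - a 0) (c 1 - a 1) *
        ((z 1 - a 1) - (z' 1 - a' 1)) = 0 := by
      unfold det2
      linear_combination ((c 0 - a 0) / 2) * e1 - ((c 0 - a 0) / 2) * e1' -
        ((b 0 - a 0) / 2) * e2 + ((b 0 - a 0) / 2) * e2'
    exact (mul_eq_zero.mp this).resolve_left hdet
  have hr : 0 ≤ r := ha ▸ dist_nonneg
  have hr' : 0 ≤ r' := ha' ▸ dist_nonneg
  have s1 := dist_sq a z
  have s2 := dist_sq a' z'
  rw [ha] at s1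
  rw [ha'] at s2
  have : r ^ 2 = r' ^ 2 := by
    rw [s1, s2]
    have t0 : a 0 - z 0 = a' 0 - z' 0 := by linarith
    have t1 : a 1 - z 1 = a' 1 - z' 1 := by linarith
    rw [t0, t1]
  exact (sq_eq_sq₀ hr hr').mp this

/-! ### Generic projections -/

open MvPolynomial in
/-- finitely many polynomials, none of which vanishes identically, have a common non-zero -/
theorem exists_common {σ ι : Type*} (s : Finset ι) (p : ι → MvPolynomial σ ℝ)
    (h : ∀ i ∈ s, ∃ v : σ → ℝ, eval v (p i) ≠ 0) :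
    ∃ v : σ → ℝ, ∀ i ∈ s, eval v (p i) ≠ 0 := by
  classical
  have hq : ∏ i ∈ s, p i ≠ 0 := by
    rw [Finset.prod_ne_zero_iff]
    intro i hi h0
    obtain ⟨v, hv⟩ := h i hi
    exact hv (by rw [h0, map_zero])
  by_contra hcon
  push Not at hcon
  apply hq
  apply MvPolynomial.funext
  intro v
  obtain ⟨i, hi, h0⟩ := hcon v
  rw [map_zero, map_prod]
  exact Finset.prod_eq_zero hi h0

variable {D : ℕ}

/-- the first coordinate of the projection of `u` as a polynomial in the projection -/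
noncomputable def polX (u : Fin D → ℝ) : MvPolynomial (Fin D ⊕ Fin D) ℝ :=
  ∑ k, MvPolynomial.C (u k) * MvPolynomial.X (Sum.inl k)

/-- the second coordinate -/
noncomputable def polY (u : Fin D → ℝ) : MvPolynomial (Fin D ⊕ Fin D) ℝ :=
  ∑ k, MvPolynomial.C (u k) * MvPolynomial.X (Sum.inr k)

theorem eval_polX (u : Fin D → ℝ) (v : Fin D ⊕ Fin D → ℝ) :
    MvPolynomial.eval v (polX u) = ∑ k, u k * v (Sum.inl k) := by
  simp [polX]

theorem eval_polY (u : Fin D → ℝ) (v : Fin D ⊕ Fin D → ℝ) :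
    MvPolynomial.eval v (polY u) = ∑ k, u k * v (Sum.inr k) := by
  simp [polY]

/-- the projection -/
noncomputable def proj (x y : Fin D → ℝ) (p : Fin D → ℝ) : Plane :=
  !₂[∑ k, p k * x k, ∑ k, p k * y k]

theorem proj_zero (x y : Fin D → ℝ) (p : Fin D → ℝ) : proj x y p 0 = ∑ k, p k * x k := by
  simp [proj]

theorem proj_one (x y : Fin D → ℝ) (p : Fin D → ℝ) : proj x y p 1 = ∑ k, p k * y k := by
  simp [proj]

theorem sub_zero' (x y p q : Fin D → ℝ) :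
    proj x y p 0 - proj x y q 0 = ∑ k, (p - q) k * x k := by
  rw [proj_zero, proj_zero, ← Finset.sum_sub_distrib]
  exact Finset.sum_congr rfl fun k _ => by simp only [Pi.sub_apply]; ring

theorem sub_one' (x y p q : Fin D → ℝ) :
    proj x y p 1 - proj x y q 1 = ∑ k, (p - q) k * y k := by
  rw [proj_one, proj_one, ← Finset.sum_sub_distrib]
  exact Finset.sum_congr rfl fun k _ => by simp only [Pi.sub_apply]; ring

/-- a generic projection of a finite set without collinear triples -/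
theorem exists_proj (S : Finset (Fin D → ℝ))
    (hS : ∀ a ∈ S, ∀ b ∈ S, ∀ c ∈ S, a ≠ b → a ≠ c → b ≠ c → LinearIndependent ℝ ![b - a, c - a]) :
    ∃ x y : Fin D → ℝ,
      (∀ a ∈ S, ∀ b ∈ S, ∀ c ∈ S, a ≠ b → a ≠ c → b ≠ c →
        det2 (∑ k, (b - a) k * x k) (∑ k, (b - a) k * y k)
          (∑ k, (c - a) k * x k) (∑ k, (c - a) k * y k) ≠ 0) ∧
      (∀ a ∈ S, ∀ b ∈ S, ∀ c ∈ S, ∀ d ∈ S, a ≠ b → a ≠ c → a ≠ d → b ≠ c → b ≠ d → c ≠ d →
        det3 (∑ k, (b - a) k * x k) (∑ k, (b - a) k * y k)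
          (∑ k, (c - a) k * x k) (∑ k, (c - a) k * y k)
          (∑ k, (d - a) k * x k) (∑ k, (d - a) k * y k) ≠ 0) := by
  classical
  -- the index set: triples and quadruples
  let T3 : Finset ((Fin D → ℝ) × (Fin D → ℝ) × (Fin D → ℝ)) :=
    (S ×ˢ S ×ˢ S).filter fun t => t.1 ≠ t.2.1 ∧ t.1 ≠ t.2.2 ∧ t.2.1 ≠ t.2.2
  let T4 : Finset ((Fin D → ℝ) × (Fin D → ℝ) × (Fin D → ℝ) × (Fin D → ℝ)) :=
    (S ×ˢ S ×ˢ S ×ˢ S).filter fun t => t.1 ≠ t.2.1 ∧ t.1 ≠ t.2.2.1 ∧ t.1 ≠ t.2.2.2 ∧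
      t.2.1 ≠ t.2.2.1 ∧ t.2.1 ≠ t.2.2.2 ∧ t.2.2.1 ≠ t.2.2.2
  let p3 : (Fin D → ℝ) × (Fin D → ℝ) × (Fin D → ℝ) → MvPolynomial (Fin D ⊕ Fin D) ℝ := fun t =>
    polX (t.2.1 - t.1) * polY (t.2.2 - t.1) - polY (t.2.1 - t.1) * polX (t.2.2 - t.1)
  let p4 : (Fin D → ℝ) × (Fin D → ℝ) × (Fin D → ℝ) × (Fin D → ℝ) →
      MvPolynomial (Fin D ⊕ Fin D) ℝ := fun t =>
    (polX (t.2.1 - t.1) ^ 2 + polY (t.2.1 - t.1) ^ 2) *
      (polX (t.2.2.1 - t.1) * polY (t.2.2.2 - t.1) - polY (t.2.2.1 - t.1) * polX (t.2.2.2 - t.1)) -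
    (polX (t.2.2.1 - t.1) ^ 2 + polY (t.2.2.1 - t.1) ^ 2) *
      (polX (t.2.1 - t.1) * polY (t.2.2.2 - t.1) - polY (t.2.1 - t.1) * polX (t.2.2.2 - t.1)) +
    (polX (t.2.2.2 - t.1) ^ 2 + polY (t.2.2.2 - t.1) ^ 2) *
      (polX (t.2.1 - t.1) * polY (t.2.2.1 - t.1) - polY (t.2.1 - t.1) * polX (t.2.2.1 - t.1))
  have e3 : ∀ (t) (x y : Fin D → ℝ), MvPolynomial.eval (Sum.elim x y) (p3 t) =
      det2 (∑ k, (t.2.1 - t.1) k * x k) (∑ k, (t.2.1 - t.1) k * y k)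
          (∑ k, (t.2.2 - t.1) k * x k) (∑ k, (t.2.2 - t.1) k * y k) := by
    intro t x y
    simp only [p3, map_sub, map_mul, eval_polX, eval_polY, Sum.elim_inl, Sum.elim_inr, det2]
  have e4 : ∀ (t) (x y : Fin D → ℝ), MvPolynomial.eval (Sum.elim x y) (p4 t) =
      det3 (∑ k, (t.2.1 - t.1) k * x k) (∑ k, (t.2.1 - t.1) k * y k)
          (∑ k, (t.2.2.1 - t.1) k * x k) (∑ k, (t.2.2.1 - t.1) k * y k)
          (∑ k, (t.2.2.2 - t.1) k * x k) (∑ k, (t.2.2.2 - t.1) k * y k) := by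
    intro t x y
    simp only [p4, map_sub, map_add, map_mul, map_pow, eval_polX, eval_polY, Sum.elim_inl,
      Sum.elim_inr, det3]
  obtain ⟨v, hv⟩ := exists_common (T3.disjSum T4) (Sum.elim p3 p4) (by
    rintro (t | t) ht
    · rw [Finset.inl_mem_disjSum] at ht
      simp only [T3, mem_filter, mem_product] at ht
      obtain ⟨⟨h1, h2, h3⟩, h4, h5, h6⟩ := ht
      obtain ⟨x, y, hxy⟩ := exists_det2 _ _ (hS _ h1 _ h2 _ h3 h4 h5 h6)
      exact ⟨Sum.elim x y, by rw [Sum.elim_inl, e3]; exact hxy⟩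
    · rw [Finset.inr_mem_disjSum] at ht
      simp only [T4, mem_filter, mem_product] at ht
      obtain ⟨⟨h1, h2, h3, h3'⟩, h4, h5, h6, h7, h8, h9⟩ := ht
      obtain ⟨x, y, hxy⟩ := exists_det3 _ _ _ (hS _ h1 _ h2 _ h3 h4 h5 h7)
        (hS _ h1 _ h2 _ h3' h4 h6 h8) (hS _ h1 _ h3 _ h3' h5 h6 h9)
      exact ⟨Sum.elim x y, by rw [Sum.elim_inr, e4]; exact hxy⟩)
  have hve : v = Sum.elim (fun k => v (Sum.inl k)) (fun k => v (Sum.inr k)) := by
    ext k
    rcases k with k | k <;> rfl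
  refine ⟨fun k => v (Sum.inl k), fun k => v (Sum.inr k), ?_, ?_⟩
  · intro a ha b hb c hc h1 h2 h3
    have := hv (Sum.inl (a, b, c)) (by
      rw [Finset.inl_mem_disjSum]
      simp only [T3, mem_filter, mem_product]
      exact ⟨⟨ha, hb, hc⟩, h1, h2, h3⟩)
    rw [hve, Sum.elim_inl, e3] at this
    exact this
  · intro a ha b hb c hc d hd h1 h2 h3 h4 h5 h6
    have := hv (Sum.inr (a, b, c, d)) (by
      rw [Finset.inr_mem_disjSum]
      simp only [T4, mem_filter, mem_product]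
      exact ⟨⟨ha, hb, hc, hd⟩, h1, h2, h3, h4, h5, h6⟩)
    rw [hve, Sum.elim_inr, e4] at this
    exact this

end Pool.Agent.J4H91.Circ
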